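import Pool.Agent.N877.P21.Defs

/-!
# The pairs with inner product divisible by seven and the Gross sums (level `21`)
-/

set_option autoImplicit false

namespace Pool.Agent.N144.P21

open Finset
open Pool.Agent.N877.P21
open Pool.Agent.N969.P15 (V3)

theorem ip_nonneg (v : V3) : 0 ≤ ip v v := by
  unfold ip
  nlinarith [sq_nonneg (v 1 + v 2), sq_nonneg (v 0), sq_nonneg (v 1), sq_nonneg (v 2)]

theorem sq_le_ip (v : V3) (i : Fin 3) : v i ^ 2 ≤ ip v v := by
  unfold ip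
  fin_cases i
  · change v 0 ^ 2 ≤ _
    nlinarith [sq_nonneg (v 1 + v 2), sq_nonneg (v 0), sq_nonneg (v 1), sq_nonneg (v 2)]
  · change v 1 ^ 2 ≤ _
    nlinarith [sq_nonneg (v 1 + v 2), sq_nonneg (v 0), sq_nonneg (v 1), sq_nonneg (v 2)]
  · change v 2 ^ 2 ≤ _
    nlinarith [sq_nonneg (v 1 + v 2), sq_nonneg (v 0), sq_nonneg (v 1), sq_nonneg (v 2)]

theorem mem_vec {n : ℤ} {v : V3} : v ∈ vec n ↔ ip v v = n := by
  unfold vec
  rw [Finset.mem_filter, Fintype.mem_piFinset]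
  constructor
  · exact fun h => h.2
  · intro h
    refine ⟨fun i => ?_, h⟩
    rw [Finset.mem_Icc]
    have h1 := sq_le_ip v i
    rw [h] at h1
    have h2 := Int.le_self_sq (v i)
    have h3 := Int.le_self_sq (-v i)
    constructor <;> nlinarith

/-- Cauchy-Schwarz -/
theorem cs (v w : V3) : ip v w ^ 2 ≤ ip v v * ip w w := by
  have key : ip v v * ip w w - ip v w ^ 2 =
      6 * (((v 2 * w 0 - v 0 * w 2) - (v 0 * w 1 - v 1 * w 0)) ^ 2 +
        (v 2 * w 0 - v 0 * w 2) ^ 2 + (v 0 * w 1 - v 1 * w 0) ^ 2 +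
        2 * (v 1 * w 2 - v 2 * w 1) ^ 2) := by
    unfold ip
    ring
  have : 0 ≤ ip v v * ip w w - ip v w ^ 2 := by
    rw [key]
    positivity
  linarith

/-- the eight linear forms whose kernels are orthogonal to the isotropic lines modulo seven -/
def LL {R : Type*} [CommRing R] (i : Fin 8) (a b c : R) : R :=
  ![3 * b + c, 3 * c + b, 3 * a + 4 * b + 2 * c, 3 * a + 2 * b + 4 * c, 3 * a - 2 * b + 2 * c,
    3 * a - 4 * b - 2 * c, 3 * a - 2 * b - 4 * c, 3 * a + 2 * b - 2 * c] i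

/-- orthogonality to an isotropic line -/
def Ot (i : Fin 8) (v : V3) : Prop := (7 : ℤ) ∣ LL i (v 0) (v 1) (v 2)

instance (i : Fin 8) (v : V3) : Decidable (Ot i v) := by
  unfold Ot; infer_instance

theorem dvd7_iff (x : ℤ) : (7 : ℤ) ∣ x ↔ (x : ZMod 7) = 0 :=
  (ZMod.intCast_zmod_eq_zero_iff_dvd x 7).symm

/-- the inner product over a ring -/
def ipR {R : Type*} [CommRing R] (a b c x y z : R) : R :=
  3 * (a * x) + 4 * (b * y) + 4 * (c * z) + 2 * (b * z + c * y)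

theorem ip_cast (v w : V3) : ((ip v w : ℤ) : ZMod 7) =
    ipR (v 0 : ZMod 7) (v 1 : ZMod 7) (v 2 : ZMod 7) (w 0 : ZMod 7) (w 1 : ZMod 7)
      (w 2 : ZMod 7) := by
  unfold ip ipR
  push_cast
  ring

theorem LL_cast (i : Fin 8) (v : V3) : ((LL i (v 0) (v 1) (v 2) : ℤ) : ZMod 7) =
    LL i (v 0 : ZMod 7) (v 1 : ZMod 7) (v 2 : ZMod 7) := by
  fin_cases i <;> simp [LL]

/-- generators of the isotropic lines (scaled such that the linear forms are the inner products) -/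
def gen (i : Fin 8) : ZMod 7 × ZMod 7 × ZMod 7 :=
  ![(0, 2, 1), (0, 1, 2), (1, 1, 0), (1, 0, 1), (1, -1, 1), (1, -1, 0), (1, 0, -1), (1, 1, -1)] i

theorem gen_LL : ∀ (i : Fin 8) (x y z : ZMod 7),
    ipR (gen i).1 (gen i).2.1 (gen i).2.2 x y z = LL i x y z := by
  decide +kernel

theorem ipR_smul (t a b c x y z : ZMod 7) :
    ipR (t * a) (t * b) (t * c) x y z = t * ipR a b c x y z := by
  unfold ipR; ring

theorem iso_fin : ∀ a b c : ZMod 7, (a ≠ 0 ∨ b ≠ 0 ∨ c ≠ 0) → ipR a b c a b c = 0 →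
    ∃ i : Fin 8, (∃ t : ZMod 7, t ≠ 0 ∧ a = t * (gen i).1 ∧ b = t * (gen i).2.1 ∧
      c = t * (gen i).2.2) ∧ ∀ j : Fin 8, LL j a b c = 0 ↔ j = i := by
  decide +kernel

theorem ind_fin (a b c x y z : ZMod 7) (h : a ≠ 0 ∨ b ≠ 0 ∨ c ≠ 0) (h0 : ipR a b c a b c = 0) :
    (if ipR a b c x y z = 0 then (1 : ℤ) else 0) =
      ∑ i : Fin 8, (if LL i a b c = 0 then (1 : ℤ) else 0) * (if LL i x y z = 0 then 1 else 0) := by
  obtain ⟨i, ⟨t, ht, ha, hb, hc⟩, hj⟩ := iso_fin a b c h h0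
  have e1 : ∑ i : Fin 8, (if LL i a b c = 0 then (1 : ℤ) else 0) *
      (if LL i x y z = 0 then 1 else 0) = if LL i x y z = 0 then 1 else 0 := by
    rw [Finset.sum_eq_single i]
    · rw [if_pos ((hj i).2 rfl), one_mul]
    · intro j _ hji
      rw [if_neg (fun h => hji ((hj j).1 h)), zero_mul]
    · intro h
      exact absurd (Finset.mem_univ i) h
  rw [e1]
  have e2 : ipR a b c x y z = t * LL i x y z := by
    rw [ha, hb, hc, ipR_smul, gen_LL]
  rw [e2]
  have e3 : t * LL i x y z = 0 ↔ LL i x y z = 0 := by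
    have : Fact (Nat.Prime 7) := ⟨by norm_num⟩
    constructor
    · intro h
      exact (mul_eq_zero.1 h).resolve_left ht
    · intro h
      rw [h, mul_zero]
  simp only [e3]

theorem ne_zero_of {n : ℕ} (h9 : ¬ 49 ∣ n) {v : V3} (hv : ip v v = n) :
    (v 0 : ZMod 7) ≠ 0 ∨ (v 1 : ZMod 7) ≠ 0 ∨ (v 2 : ZMod 7) ≠ 0 := by
  by_contra hcon
  push Not at hcon
  obtain ⟨h0, h1, h2⟩ := hcon
  rw [← dvd7_iff] at h0 h1 h2
  obtain ⟨a, ha⟩ := h0
  obtain ⟨b, hb⟩ := h1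
  obtain ⟨c, hc⟩ := h2
  apply h9
  have : (49 : ℤ) ∣ (n : ℤ) := by
    rw [← hv]
    unfold ip
    rw [ha, hb, hc]
    exact ⟨3 * (a * a) + 4 * (b * b) + 4 * (c * c) + 2 * (b * c + c * b), by ring⟩
  exact_mod_cast this

theorem ipR_self_zero {n : ℕ} (h7 : 7 ∣ n) {v : V3} (hv : ip v v = n) :
    ipR (v 0 : ZMod 7) (v 1 : ZMod 7) (v 2 : ZMod 7) (v 0 : ZMod 7) (v 1 : ZMod 7)
      (v 2 : ZMod 7) = 0 := by
  rw [← ip_cast, hv, ← dvd7_iff]
  exact_mod_cast h7

theorem ipR_self {n r : ℕ} (h7 : n % 7 = r) {v : V3} (hv : ip v v = n) :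
    ipR (v 0 : ZMod 7) (v 1 : ZMod 7) (v 2 : ZMod 7) (v 0 : ZMod 7) (v 1 : ZMod 7)
      (v 2 : ZMod 7) = (r : ZMod 7) := by
  rw [← ip_cast, hv]
  have : (7 : ℤ) ∣ (n : ℤ) - r := by omega
  rw [dvd7_iff] at this
  push_cast at this ⊢
  linear_combination this

/-- the number of vectors orthogonal to a line -/
noncomputable def NN (i : Fin 8) (n : ℤ) : ℤ := ((vec n).filter fun v => Ot i v).card

theorem ind_ip {v w : V3} {n1 : ℕ} (h1 : 7 ∣ n1) (h1' : ¬ 49 ∣ n1) (hv : ip v v = n1) :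
    (if (7 : ℤ) ∣ ip v w then (1 : ℤ) else 0) =
      ∑ i : Fin 8, (if Ot i v then (1 : ℤ) else 0) * (if Ot i w then 1 else 0) := by
  have key := ind_fin (v 0) (v 1) (v 2) (w 0) (w 1) (w 2) (ne_zero_of h1' hv)
    (ipR_self_zero h1 hv)
  simp only [dvd7_iff, Ot, ip_cast, LL_cast]
  exact key

theorem card_eq_sum {α : Type*} (s : Finset α) (p : α → Prop) [DecidablePred p] :
    ((s.filter p).card : ℤ) = ∑ x ∈ s, if p x then (1 : ℤ) else 0 := by
  rw [Finset.card_filter]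
  push_cast
  rfl

theorem cp0_eq {n1 : ℕ} (n2 : ℕ) (h1 : 7 ∣ n1) (h1' : ¬ 49 ∣ n1) :
    (cp0 n1 n2 : ℤ) = ∑ i : Fin 8, NN i n1 * NN i n2 := by
  unfold cp0
  rw [card_eq_sum, Finset.sum_product]
  have : ∀ v ∈ vec (n1 : ℤ), ∑ w ∈ vec (n2 : ℤ),
      (if (7 : ℤ) ∣ ip v w then (1 : ℤ) else 0) =
      ∑ w ∈ vec (n2 : ℤ), ∑ i : Fin 8, (if Ot i v then (1 : ℤ) else 0) *
        (if Ot i w then 1 else 0) := by
    intro v hv
    refine Finset.sum_congr rfl fun w hw => ?_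
    exact ind_ip h1 h1' (mem_vec.1 hv)
  rw [Finset.sum_congr rfl this]
  have : ∀ v ∈ vec (n1 : ℤ), ∑ w ∈ vec (n2 : ℤ), ∑ i : Fin 8, (if Ot i v then (1 : ℤ) else 0) *
        (if Ot i w then 1 else 0) = ∑ i : Fin 8, (if Ot i v then (1 : ℤ) else 0) * NN i n2 := by
    intro v _
    rw [Finset.sum_comm]
    refine Finset.sum_congr rfl fun i _ => ?_
    rw [← Finset.mul_sum, NN, card_eq_sum]
  rw [Finset.sum_congr rfl this, Finset.sum_comm]
  refine Finset.sum_congr rfl fun i _ => ?_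
  rw [← Finset.sum_mul]
  congr 1
  rw [NN, card_eq_sum]

/-! ### the rotations -/

/-- an automorphism moving one line to another -/
theorem NN_rot {i j : Fin 8} (f g : V3 → V3) (hfg : ∀ v, f (g v) = v) (hgf : ∀ v, g (f v) = v)
    (hf : ∀ v, ip (f v) (f v) = ip v v)
    (h : ∀ v : V3, LL i (f v 0) (f v 1) (f v 2) = LL j (v 0) (v 1) (v 2)) (n : ℤ) :
    NN j n = NN i n := by
  have hg : ∀ v, ip (g v) (g v) = ip v v := fun v => by rw [← hf (g v), hfg]
  unfold NN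
  congr 1
  refine Finset.card_nbij' f g ?_ ?_ ?_ ?_
  · intro v hv
    rw [Finset.mem_coe, Finset.mem_filter, mem_vec] at hv ⊢
    refine ⟨by rw [hf]; exact hv.1, ?_⟩
    have := hv.2
    unfold Ot at this ⊢
    rw [h]
    exact this
  · intro v hv
    rw [Finset.mem_coe, Finset.mem_filter, mem_vec] at hv ⊢
    refine ⟨by rw [hg]; exact hv.1, ?_⟩
    have := hv.2
    unfold Ot at this ⊢
    rw [← h (g v), hfg]
    exact this
  · intro v _
    exact hgf v
  · intro v _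
    exact hfg v

/-- the rotation of order six -/
def rho (v : V3) : V3 := ![v 0, -v 2, v 1 + v 2]

def rho' (v : V3) : V3 := ![v 0, v 1 + v 2, -v 1]

theorem rho_rho' (v : V3) : rho (rho' v) = v := by
  ext i
  fin_cases i <;> simp [rho, rho']

theorem rho'_rho (v : V3) : rho' (rho v) = v := by
  ext i
  fin_cases i <;> simp [rho, rho']

theorem ip_rho (v : V3) : ip (rho v) (rho v) = ip v v := by
  simp only [ip, rho, Matrix.cons_val_zero, Matrix.cons_val_one, Matrix.cons_val]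
  ring

/-- the swap -/
def tau (v : V3) : V3 := ![v 0, v 2, v 1]

theorem tau_tau (v : V3) : tau (tau v) = v := by
  ext i
  fin_cases i <;> simp [tau]

theorem ip_tau (v : V3) : ip (tau v) (tau v) = ip v v := by
  simp only [ip, tau, Matrix.cons_val_zero, Matrix.cons_val_one, Matrix.cons_val]
  ring

theorem NN0 (n : ℤ) : NN 0 n = rr0 n := rfl

theorem NN1 (n : ℤ) : NN 1 n = rr0 n := by
  rw [← NN0]
  refine NN_rot tau tau tau_tau tau_tau ip_tau (fun v => ?_) n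
  simp only [LL, tau, Matrix.cons_val_zero, Matrix.cons_val_one, Matrix.cons_val]

theorem NN_rho {i j : Fin 8} (h : ∀ v : V3, LL i (rho v 0) (rho v 1) (rho v 2) =
    LL j (v 0) (v 1) (v 2)) (n : ℤ) : NN i n = NN j n :=
  (NN_rot rho rho' rho_rho' rho'_rho ip_rho h n).symm

theorem NN3 (n : ℤ) : NN 3 n = NN 2 n := by
  refine NN_rho (fun v => ?_) n
  simp only [LL, rho, Matrix.cons_val_zero, Matrix.cons_val_one, Matrix.cons_val]
  ring

theorem NN4 (n : ℤ) : NN 4 n = NN 2 n := by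
  rw [← NN3 n]
  refine NN_rho (fun v => ?_) n
  simp only [LL, rho, Matrix.cons_val_zero, Matrix.cons_val_one, Matrix.cons_val]
  ring

theorem NN5 (n : ℤ) : NN 5 n = NN 2 n := by
  rw [← NN4 n]
  refine NN_rho (fun v => ?_) n
  simp only [LL, rho, Matrix.cons_val_zero, Matrix.cons_val_one, Matrix.cons_val]
  ring

theorem NN6 (n : ℤ) : NN 6 n = NN 2 n := by
  rw [← NN5 n]
  refine NN_rho (fun v => ?_) n
  simp only [LL, rho, Matrix.cons_val_zero, Matrix.cons_val_one, Matrix.cons_val]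
  ring

theorem NN7 (n : ℤ) : NN 7 n = NN 2 n := by
  rw [← NN6 n]
  refine NN_rho (fun v => ?_) n
  simp only [LL, rho, Matrix.cons_val_zero, Matrix.cons_val_one, Matrix.cons_val]
  ring

/-- sums over the lines -/
theorem sum8 (n m : ℤ) : ∑ i : Fin 8, NN i n * NN i m = 2 * (rr0 n * rr0 m) +
    6 * (NN 2 n * NN 2 m) := by
  rw [Fin.sum_univ_eight, NN0, NN0, NN1, NN1, NN3, NN3, NN4, NN4, NN5, NN5, NN6, NN6, NN7, NN7]
  ring

theorem sum_NN (n : ℤ) : ∑ i : Fin 8, NN i n = 2 * rr0 n + 6 * NN 2 n := by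
  rw [Fin.sum_univ_eight, NN0, NN1, NN3, NN4, NN5, NN6, NN7]
  ring

theorem sum_fin : ∀ x y z : ZMod 7,
    ((x ≠ 0 ∨ y ≠ 0 ∨ z ≠ 0) ∧ ipR x y z x y z = 0 →
    ∑ i : Fin 8, (if LL i x y z = 0 then (1 : ℤ) else 0) = 1) ∧
    ((ipR x y z x y z = 3 ∨ ipR x y z x y z = 5 ∨ ipR x y z x y z = 6) →
    ∑ i : Fin 8, (if LL i x y z = 0 then (1 : ℤ) else 0) = 2) ∧
    ((ipR x y z x y z = 1 ∨ ipR x y z x y z = 2 ∨ ipR x y z x y z = 4) →
    ∀ i : Fin 8, LL i x y z ≠ 0) := by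
  decide +kernel

theorem sum_ind {n : ℤ} {k : ℤ} (h : ∀ v : V3, ip v v = n →
    ∑ i : Fin 8, (if Ot i v then (1 : ℤ) else 0) = k) : 2 * rr0 n + 6 * NN 2 n = k * rr n := by
  rw [← sum_NN]
  unfold NN rr
  simp only [card_eq_sum]
  rw [Finset.sum_comm, Finset.sum_congr rfl fun v hv => h v (mem_vec.1 hv), Finset.sum_const,
    nsmul_eq_mul, mul_comm]

theorem NN_77 {n : ℕ} (h7 : 7 ∣ n) (h49 : ¬ 49 ∣ n) : 2 * rr0 n + 6 * NN 2 n = rr n := by
  have := sum_ind (n := n) (k := 1) (fun v hv => by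
    have := (sum_fin (v 0) (v 1) (v 2)).1 ⟨ne_zero_of h49 hv, ipR_self_zero h7 hv⟩
    simp only [dvd7_iff, Ot, LL_cast]
    exact this)
  rw [one_mul] at this
  exact this

theorem NN_75 {n : ℕ} (h : Sp7 n) : 2 * rr0 n + 6 * NN 2 n = 2 * rr n := by
  refine sum_ind (n := n) (k := 2) (fun v hv => ?_)
  have := (sum_fin (v 0) (v 1) (v 2)).2.1 (by
    rcases h with h | h | h
    · exact Or.inl (by simpa using ipR_self h hv)
    · exact Or.inr (Or.inl (by simpa using ipR_self h hv))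
    · exact Or.inr (Or.inr (by simpa using ipR_self h hv)))
  simp only [dvd7_iff, Ot, LL_cast]
  exact this

theorem s_REL77 : S_REL77 := by
  intro n1 n2 h1 h1' h2 h2'
  rw [cp0_eq n2 h1 h1', sum8]
  have e1 := NN_77 h1 h1'
  have e2 := NN_77 h2 h2'
  unfold cc
  rw [if_pos (by omega), if_pos (by omega), ← e1, ← e2]
  ring

theorem s_REL75 : S_REL75 := by
  intro n1 n2 h1 h1' h2
  rw [cp0_eq n2 h1 h1', sum8]
  have e1 := NN_77 h1 h1'
  have e2 := NN_75 h2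
  have e3 : rr n2 = rr0 n2 + 3 * NN 2 n2 := by linarith
  have h3 : (n2 : ℤ) % 7 ≠ 0 := by
    rcases h2 with h | h | h <;> omega
  unfold cc
  rw [if_pos (by omega), if_neg h3, ← e1, e3]
  ring

theorem s_REL71 : S_REL71 := by
  intro n1 n2 h1 h1' h2
  have h3 : (cp0 n1 n2 : ℤ) = 0 := by
    rw [cp0_eq n2 h1 h1']
    refine Finset.sum_eq_zero fun i _ => ?_
    have : NN i n2 = 0 := by
      unfold NN
      rw [Nat.cast_eq_zero, Finset.card_eq_zero, Finset.filter_eq_empty_iff]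
      intro v hv
      rw [mem_vec] at hv
      have := (sum_fin (v 0) (v 1) (v 2)).2.2 (by
        rcases h2 with h | h | h
        · exact Or.inl (by simpa using ipR_self h hv)
        · exact Or.inr (Or.inl (by simpa using ipR_self h hv))
        · exact Or.inr (Or.inr (by simpa using ipR_self h hv))) i
      rw [Ot, dvd7_iff, LL_cast]
      exact this
    rw [this, mul_zero]
  exact_mod_cast h3

end Pool.Agent.N144.P21
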